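import Pool.Agent.QPI.Stmts

set_option autoImplicit false

namespace Pool.Agent.QPI.H18

open MvPolynomial Pool.Agent.QPI

/-- The substitution `x ↦ z x`. -/
noncomputable def Hx (ι : Type) : MvPolynomial ι ℚ →ₐ[ℚ] PowerSeries (MvPolynomial ι ℚ) :=
  aeval (fun s : ι => (PowerSeries.X : PowerSeries (MvPolynomial ι ℚ)) * PowerSeries.C (X s))

theorem algMap_eq (ι : Type) (a : ℚ) :
    algebraMap ℚ (PowerSeries (MvPolynomial ι ℚ)) a = PowerSeries.C (C a) := by
  rw [PowerSeries.algebraMap_apply, MvPolynomial.algebraMap_eq]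

theorem hx_X (ι : Type) (s : ι) : Hx ι (X s) = PowerSeries.X * PowerSeries.C (X s) := by
  rw [Hx, aeval_X]

theorem hx_C (ι : Type) (a : ℚ) : Hx ι (C a) = PowerSeries.C (C a) := by
  rw [Hx, aeval_C, algMap_eq]

theorem coeff_hx {ι : Type} (q : MvPolynomial ι ℚ) : ∀ (μ : ℕ) (d : ι →₀ ℕ),
    coeff d (PowerSeries.coeff μ (Hx ι q)) = if d.degree = μ then coeff d q else 0 := by
  classical
  induction q using MvPolynomial.induction_on with
  | C a =>
    intro μ d
    rw [hx_C, PowerSeries.coeff_C]
    by_cases hμ : μ = 0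
    · subst hμ
      rw [if_pos rfl, coeff_C]
      by_cases hd : 0 = d
      · subst hd
        simp
      · rw [if_neg hd, ite_self]
    · rw [if_neg hμ, coeff_zero, coeff_C]
      by_cases hd : 0 = d
      · subst hd
        rw [if_neg]
        intro h
        exact hμ (h.symm.trans (map_zero _))
      · rw [if_neg hd, ite_self]
  | add p q hp hq =>
    intro μ d
    rw [map_add, map_add, coeff_add, hp, hq, coeff_add]
    split_ifs
    · rfl
    · rw [add_zero]
  | mul_X p s hp =>
    intro μ d
    have h1 : Hx ι (p * X s) = PowerSeries.X * (Hx ι p * PowerSeries.C (X s)) := by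
      rw [map_mul, hx_X]; ring
    rw [h1]
    rw [coeff_mul_X']
    cases μ with
    | zero =>
      rw [PowerSeries.coeff_zero_X_mul, coeff_zero]
      by_cases hs : s ∈ d.support
      · rw [if_neg]
        intro h
        have h0 : d = 0 := (Finsupp.degree_eq_zero_iff _).1 h
        rw [h0] at hs
        simp at hs
      · rw [if_neg hs, ite_self]
    | succ μ =>
      rw [PowerSeries.coeff_succ_X_mul, PowerSeries.coeff_mul_C, coeff_mul_X']
      by_cases hs : s ∈ d.support
      · rw [if_pos hs, if_pos hs, hp]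
        have h2 : (d - Finsupp.single s 1) + Finsupp.single s 1 = d := by
          apply tsub_add_cancel_of_le
          rw [Finsupp.single_le_iff]
          exact Nat.one_le_iff_ne_zero.2 (Finsupp.mem_support_iff.1 hs)
        have h3 : d.degree = (d - Finsupp.single s 1).degree + 1 := by
          have h4 := congrArg Finsupp.degree h2
          rw [map_add, Finsupp.degree_single] at h4
          exact h4.symm
        by_cases hd : (d - Finsupp.single s 1).degree = μ
        · rw [if_pos hd, if_pos (by rw [h3, hd])]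
        · rw [if_neg hd, if_neg (fun h => hd (by rw [h3] at h; exact Nat.succ_injective h))]
      · rw [if_neg hs, if_neg hs, ite_self]

theorem hx_injective (ι : Type) : Function.Injective (Hx ι) := by
  rw [injective_iff_map_eq_zero]
  intro q hq
  ext d
  have h := coeff_hx q d.degree d
  rw [if_pos rfl, hq, map_zero, coeff_zero] at h
  rw [← h, coeff_zero]

theorem hat_eq {N₁ N₂ : ℕ} {ι : Type} [Fintype ι] (l : Fin N₁ → ι → ℚ)
    (A : Fin N₂ → Matrix ι ι ℚ) :
    (hat (form l A) : MvPolynomial (Fin N₁ ⊕ Fin N₂) ℚ →ₐ[ℚ] PowerSeries (MvPolynomial ι ℚ)) =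
      (Hx ι).comp (aeval (form l A)) := by
  refine MvPolynomial.algHom_ext fun v => ?_
  rw [AlgHom.comp_apply, aeval_X]
  unfold hat
  rw [aeval_X]
  cases v with
  | inl u =>
    simp only [form, wt, Sum.elim_inl, pow_one, map_sum, map_mul, hx_X, hx_C, Finset.mul_sum]
    refine Finset.sum_congr rfl fun s _ => ?_
    ring
  | inr v =>
    simp only [form, wt, Sum.elim_inr, map_sum, map_mul, hx_X, hx_C, Finset.mul_sum]
    refine Finset.sum_congr rfl fun s _ => Finset.sum_congr rfl fun s' _ => ?_
    ring

theorem sca : ScaStmt := by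
  intro N₁ N₂ ι _ l A
  refine ⟨fun p => ?_, hx_injective ι⟩
  exact congrArg (fun F : MvPolynomial (Fin N₁ ⊕ Fin N₂) ℚ →ₐ[ℚ]
    PowerSeries (MvPolynomial ι ℚ) => F p) (hat_eq l A)

end Pool.Agent.QPI.H18
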